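import Pool.Agent.Lib.MP_3885fd_co.Series

/-! # A polynomial equivariant `H*`-series which is not effective

The example is the four-fold pyramid over a unit square (a six-dimensional lattice polytope with
eight vertices), with respect to the lattice obtained from the lattice spanned by the vertices by
adjoining one half-integral vector.  The group of order two acts by reflecting the square.
One has `H*(1; t) = 1 + t + 2 t^3` and `H*(g; t) = 1 - t + 2 t^2`, so that the coefficient `H*_2`
takes the values `0` and `2`: it is the virtual character `1 - sgn`. -/

set_option autoImplicit false

namespace Pool.Agent.Results.MP_3885fd_co.PolynomialNotEffective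

open Pool.Agent.Lib.MP_3885fd_co

/-- There is a six-dimensional lattice polytope, invariant under an action of the group
`ℤˣ = {1, -1}` of order two by affine lattice automorphisms, whose equivariant `H*`-series is
polynomial but not effective. -/
theorem result : ∃ P : InvariantLatticePolytope ℤˣ 6, P.HStarIsPolynomial ∧ ¬ P.HStarIsEffective :=
  ⟨ex, ex_polynomial, ex_not_effective⟩

end Pool.Agent.Results.MP_3885fd_co.PolynomialNotEffective
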